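import Mathlib.Analysis.Calculus.DifferentialForm.Basic
import Mathlib.Geometry.Manifold.PartitionOfUnity
import Mathlib.Geometry.Manifold.MFDeriv.NormedSpace
import Mathlib.Geometry.Manifold.Instances.Real
import Mathlib.Geometry.Manifold.Sheaf.Basic
import Mathlib.Order.CompletePartialOrder

/-!
Closed symplectic manifolds, Hamiltonian diffeomorphisms, displaceable sets and the Poisson
bracket invariant of a finite open cover.
-/

open scoped Manifold ContDiff ENNReal

namespace Pool.Agent.MP_12aee2_gt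

/-- A closed (compact, boundaryless, Hausdorff, connected) smooth manifold of dimension `d`. -/
structure ClosedMfd (d : ℕ) where
  /-- the underlying set of points -/
  carrier : Type
  [top : TopologicalSpace carrier]
  [atl : ChartedSpace (EuclideanSpace ℝ (Fin d)) carrier]
  [mfd : IsManifold (𝓡 d) ∞ carrier]
  [haus : T2Space carrier]
  [cpt : CompactSpace carrier]
  [conn : ConnectedSpace carrier]

attribute [instance] ClosedMfd.top ClosedMfd.atl ClosedMfd.mfd ClosedMfd.haus ClosedMfd.cpt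
  ClosedMfd.conn

variable {d : ℕ} {M : ClosedMfd d}

/-- The tangent space at `x`. -/
abbrev Tan (M : ClosedMfd d) (x : M.carrier) : Type := TangentSpace (𝓡 d) x

/-- A field of alternating bilinear forms on the tangent spaces. -/
abbrev TwoForm (M : ClosedMfd d) : Type := ∀ x : M.carrier, (Tan M x) [⋀^Fin 2]→L[ℝ] ℝ

/-- The preferred chart at the point `p`. -/
abbrev chartOf (M : ClosedMfd d) (p : M.carrier) :
    OpenPartialHomeomorph M.carrier (EuclideanSpace ℝ (Fin d)) :=
  chartAt (EuclideanSpace ℝ (Fin d)) p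

/-- The differential at `y` of the inverse of the chart at `p`. -/
noncomputable def chartInvDeriv (M : ClosedMfd d) (p : M.carrier) (y : EuclideanSpace ℝ (Fin d)) :
    EuclideanSpace ℝ (Fin d) →L[ℝ] Tan M ((chartOf M p).symm y) :=
  mfderiv (𝓡 d) (𝓡 d) (chartOf M p).symm y

/-- The expression of a two-form in the chart at `p` (pull-back by the inverse chart). -/
noncomputable def formInChart (σ : TwoForm M) (p : M.carrier) (y : EuclideanSpace ℝ (Fin d)) :
    (EuclideanSpace ℝ (Fin d)) [⋀^Fin 2]→L[ℝ] ℝ :=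
  (σ ((chartOf M p).symm y)).compContinuousLinearMap (chartInvDeriv M p y)

/-- The value `σ_x(v, w)`. -/
noncomputable def formVal (σ : TwoForm M) (x : M.carrier) (v w : Tan M x) : ℝ := σ x ![v, w]

/-- A symplectic form: smooth and closed in every chart, and nondegenerate. -/
structure IsSymplectic (σ : TwoForm M) : Prop where
  smooth : ∀ p, ContDiffOn ℝ ∞ (formInChart σ p) (chartOf M p).target
  closed : ∀ p, ∀ y ∈ (chartOf M p).target, extDeriv (formInChart σ p) y = 0
  nondeg : ∀ x (v : Tan M x), (∀ w, formVal σ x v w = 0) → v = 0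

/-- The value `df_x(w)` of the differential of a function. -/
noncomputable def diffVal (f : M.carrier → ℝ) (x : M.carrier) (w : Tan M x) : ℝ :=
  mvfderiv (𝓡 d) f x w

/-- The Hamiltonian vector of `f` at `x`: the vector `v` with `σ_x(v, ·) = df_x`. -/
noncomputable def hamVec (σ : TwoForm M) (f : M.carrier → ℝ) (x : M.carrier) : Tan M x :=
  Classical.epsilon fun v : Tan M x => ∀ w, formVal σ x v w = diffVal f x w

/-- The Poisson bracket `{f, g} = σ(X_f, X_g)`. -/
noncomputable def poisson (σ : TwoForm M) (f g : M.carrier → ℝ) (x : M.carrier) : ℝ :=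
  formVal σ x (hamVec σ f x) (hamVec σ g x)

/-- The curve `γ` has velocity `v` at time `t`. -/
def HasVelocity (γ : ℝ → M.carrier) (t : ℝ) (v : Tan M (γ t)) : Prop :=
  MDifferentiableAt 𝓘(ℝ, ℝ) (𝓡 d) γ t ∧ mfderiv 𝓘(ℝ, ℝ) (𝓡 d) γ t (1 : ℝ) = v

/-- `φ` is the time-one map of the flow `Φ` of a smooth time-dependent Hamiltonian `H`. -/
def IsHamDiffeo (σ : TwoForm M) (φ : M.carrier → M.carrier) : Prop :=
  ∃ (H : ℝ → M.carrier → ℝ) (Φ : ℝ → M.carrier → M.carrier),
    ContMDiff (𝓘(ℝ, ℝ).prod (𝓡 d)) 𝓘(ℝ, ℝ) ∞ (fun q : ℝ × M.carrier => H q.1 q.2) ∧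
    (∀ x, Φ 0 x = x) ∧
    (∀ x t, HasVelocity (fun s => Φ s x) t (hamVec σ (H t) (Φ t x))) ∧
    φ = Φ 1

/-- `X` is displaceable: `φ(X)` is disjoint from the closure of `X` for a Hamiltonian `φ`. -/
def Displaceable (σ : TwoForm M) (X : Set M.carrier) : Prop :=
  ∃ φ, IsHamDiffeo σ φ ∧ Disjoint (φ '' X) (closure X)

/-- `pb(F)`: the largest sup norm of `{∑ a_i f_i, ∑ b_j f_j}` over `a, b ∈ [-1,1]^N`. -/
noncomputable def pbFun {N : ℕ} (σ : TwoForm M) (f : Fin N → M.carrier → ℝ) : ℝ≥0∞ :=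
  ⨆ a ∈ Set.Icc (-1 : Fin N → ℝ) 1, ⨆ b ∈ Set.Icc (-1 : Fin N → ℝ) 1, ⨆ x : M.carrier,
    ‖poisson σ (fun y => ∑ i, a i * f i y) (fun y => ∑ j, b j * f j y) x‖ₑ

/-- `pb(U)`: the infimum of `pb(F)` over smooth partitions of unity subordinated to `U`. -/
noncomputable def pbCover {N : ℕ} (σ : TwoForm M) (U : Fin N → Set M.carrier) : ℝ≥0∞ :=
  ⨅ F : SmoothPartitionOfUnity (Fin N) (𝓡 d) M.carrier Set.univ, ⨅ _ : F.IsSubordinate U,
    pbFun σ fun i => F i

/-- A finite open cover by displaceable open sets. -/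
def IsDisplaceableCover {N : ℕ} (σ : TwoForm M) (U : Fin N → Set M.carrier) : Prop :=
  (∀ i, IsOpen (U i) ∧ Displaceable σ (U i)) ∧ ⋃ i, U i = Set.univ

end Pool.Agent.MP_12aee2_gt
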