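import Mathlib.Algebra.Order.Archimedean.Real.Hom
import Mathlib.Analysis.SpecialFunctions.Trigonometric.Deriv
import Mathlib.Analysis.SpecialFunctions.Complex.Circle
import Mathlib.Topology.Algebra.ProperAction.Basic
import Mathlib.NumberTheory.DiophantineApproximation.Basic
import Pool.Agent.MP_12aee2_gt.Defs

-- ======== part 0: formerly Pool.Agent.MP_12aee2_gt.Torus
section MrgPart0

/-!
The four-torus as a smooth manifold whose charts are local inverses of the projection.
-/

open scoped Manifold ContDiff ENNReal Topology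
open Set Filter

namespace Pool.Agent.MP_12aee2_gt

abbrev E4 : Type := EuclideanSpace ℝ (Fin 4)

abbrev T4 : Type := Fin 4 → UnitAddCircle

/-- The projection of Euclidean space onto the torus. -/
def pr (y : E4) : T4 := fun i => ((y i : ℝ) : UnitAddCircle)

theorem pr_apply (y : E4) (i : Fin 4) : pr y i = ((y i : ℝ) : UnitAddCircle) := rfl

theorem pr_add (y z : E4) : pr (y + z) = pr y + pr z := by
  funext i
  simp [pr]

theorem pr_zero : pr 0 = 0 := by
  funext i
  simp [pr]

theorem pr_sub (y z : E4) : pr (y - z) = pr y - pr z := by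
  funext i
  simp [pr]

theorem pr_surjective : Function.Surjective pr := fun x => by
  choose y hy using fun i => QuotientAddGroup.mk_surjective (x i)
  exact ⟨WithLp.toLp 2 y, funext hy⟩

theorem isLocalHomeomorph_pr : IsLocalHomeomorph pr := fun y =>
  ⟨(EuclideanSpace.equiv (Fin 4) ℝ).toHomeomorph.toOpenPartialHomeomorph.trans
    (OpenPartialHomeomorph.pi fun i => AddCircle.openPartialHomeomorphCoe (1 : ℝ) (y i - 1 / 2)),
    by
      refine ⟨mem_univ _, ?_⟩
      intro i _
      change y i ∈ Ioo (y i - 1 / 2) (y i - 1 / 2 + 1)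
      constructor <;> linarith,
    rfl⟩

theorem continuous_pr : Continuous pr := isLocalHomeomorph_pr.continuous

/-- The chart at a point of the torus. -/
noncomputable def tchart (q : T4) : OpenPartialHomeomorph T4 E4 :=
  isLocalHomeomorph_pr.localInverseAt (Function.surjInv pr_surjective q)

theorem tchart_symm (q : T4) : ((tchart q).symm : E4 → T4) = pr :=
  isLocalHomeomorph_pr.localInverseAt_symm _

theorem mem_tchart_source (q : T4) : q ∈ (tchart q).source := by
  have := isLocalHomeomorph_pr.apply_self_mem_localInverseAt_source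
    (x := Function.surjInv pr_surjective q)
  rwa [Function.surjInv_eq pr_surjective q] at this

theorem pr_tchart {q x : T4} (hx : x ∈ (tchart q).source) : pr (tchart q x) = x :=
  isLocalHomeomorph_pr.apply_localInverseAt_of_mem hx

noncomputable instance : ChartedSpace E4 T4 where
  atlas := range tchart
  chartAt := tchart
  mem_chart_source := mem_tchart_source
  chart_mem_atlas q := ⟨q, rfl⟩

theorem chartAt_eq (q : T4) : chartAt E4 q = tchart q := rfl

/-- A chart composed with the projection is locally a translation. -/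
theorem tchart_pr_eventuallyEq {q : T4} {y : E4} (hy : pr y ∈ (tchart q).source) :
    (fun z => tchart q (pr z)) =ᶠ[𝓝 y] fun z => z + (tchart q (pr y) - y) := by
  have hcont : ContinuousAt (fun z => tchart q (pr z) - z) y :=
    (((tchart q).continuousAt hy).comp continuous_pr.continuousAt).sub continuousAt_id
  have h1 : ∀ᶠ z in 𝓝 y, pr z ∈ (tchart q).source :=
    continuous_pr.continuousAt.preimage_mem_nhds ((tchart q).open_source.mem_nhds hy)
  have h2 : ∀ᶠ z in 𝓝 y, dist (tchart q (pr z) - z) (tchart q (pr y) - y) < 1 :=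
    Metric.tendsto_nhds.1 hcont 1 one_pos
  filter_upwards [h1, h2] with z hz1 hz2
  have h3 : pr ((tchart q (pr z) - z) - (tchart q (pr y) - y)) = 0 := by
    rw [pr_sub, pr_sub, pr_sub, pr_tchart hz1, pr_tchart hy]; simp
  have h4 : (tchart q (pr z) - z) - (tchart q (pr y) - y) = 0 := by
    ext i
    have h5 := congrFun h3 i
    rw [pr_apply, Pi.zero_apply, AddCircle.coe_eq_zero_iff] at h5
    obtain ⟨n, hn⟩ := h5
    have h6 : ‖((tchart q (pr z) - z) - (tchart q (pr y) - y)) i‖ < 1 :=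
      (PiLp.norm_apply_le _ i).trans_lt (by rwa [dist_eq_norm] at hz2)
    rw [← hn, zsmul_eq_mul, mul_one, Real.norm_eq_abs, ← Int.cast_abs] at h6
    have h7 : |n| < 1 := by exact_mod_cast h6
    have h8 : n = 0 := Int.abs_lt_one_iff.1 h7
    rw [← hn, h8]; simp
  rw [sub_eq_zero] at h4
  rw [← h4]; abel

instance : IsManifold (𝓡 4) ∞ T4 := by
  refine isManifold_of_contDiffOn (𝓡 4) ∞ T4 ?_
  rintro _ _ ⟨q, rfl⟩ ⟨q', rfl⟩ y hy
  have hy' : pr y ∈ (tchart q').source := by
    have := hy.1.2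
    simpa [tchart_symm] using this
  have h1 : (𝓡 4) ∘ ((tchart q).symm ≫ₕ tchart q') ∘ (𝓡 4).symm = fun z => tchart q' (pr z) := by
    funext z
    simp [tchart_symm]
  rw [h1]
  refine ContDiffAt.contDiffWithinAt ?_
  exact (ContDiffAt.congr_of_eventuallyEq (by fun_prop) (tchart_pr_eventuallyEq hy'))

theorem hasMFDerivAt_pr (y : E4) :
    HasMFDerivAt (𝓡 4) (𝓡 4) pr y (ContinuousLinearMap.id ℝ E4) := by
  refine ⟨continuous_pr.continuousAt, ?_⟩
  have h1 : writtenInExtChartAt (𝓡 4) (𝓡 4) y pr = fun z => tchart (pr y) (pr z) := by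
    funext z
    simp [writtenInExtChartAt, chartAt_eq]
  rw [h1]
  refine HasFDerivAt.hasFDerivWithinAt ?_
  have h2 : extChartAt (𝓡 4) y y = y := by simp
  rw [h2]
  exact ((hasFDerivAt_id y).add_const _).congr_of_eventuallyEq
    (tchart_pr_eventuallyEq (mem_tchart_source _))

theorem contMDiff_pr : ContMDiff (𝓡 4) (𝓡 4) ∞ pr := fun y => by
  rw [contMDiffAt_iff]
  refine ⟨continuous_pr.continuousAt, ?_⟩
  have h1 : extChartAt (𝓡 4) (pr y) ∘ pr ∘ (extChartAt (𝓡 4) y).symm =
      fun z => tchart (pr y) (pr z) := by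
    funext z
    simp [chartAt_eq]
  rw [h1]
  refine ContDiffAt.contDiffWithinAt ?_
  have h2 : extChartAt (𝓡 4) y y = y := by simp
  rw [h2]
  exact (ContDiffAt.congr_of_eventuallyEq (by fun_prop)
    (tchart_pr_eventuallyEq (mem_tchart_source _)))

/-- A function on the torus whose lift is smooth is smooth. -/
theorem contMDiff_of_lift {f : T4 → ℝ} (hf : ContDiff ℝ ∞ (f ∘ pr)) :
    ContMDiff (𝓡 4) 𝓘(ℝ, ℝ) ∞ f := fun x => by
  have h1 : f =ᶠ[𝓝 x] (f ∘ pr) ∘ extChartAt (𝓡 4) x := by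
    filter_upwards [(tchart x).open_source.mem_nhds (mem_tchart_source x)] with z hz
    simp [chartAt_eq, pr_tchart hz]
  exact (hf.contMDiff.contMDiffAt.comp x contMDiffAt_extChartAt).congr_of_eventuallyEq h1

theorem contDiff_lift {f : T4 → ℝ} (hf : ContMDiff (𝓡 4) 𝓘(ℝ, ℝ) ∞ f) : ContDiff ℝ ∞ (f ∘ pr) :=
  (hf.comp contMDiff_pr).contDiff

/-- The torus as a closed manifold. -/
noncomputable def torus : ClosedMfd 4 := ClosedMfd.mk T4

theorem diffVal_pr {f : T4 → ℝ} (hf : ContDiff ℝ ∞ (f ∘ pr)) (y w : E4) :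
    diffVal (M := torus) f (pr y) w = fderiv ℝ (f ∘ pr) y w := by
  have h1 : MDifferentiableAt (𝓡 4) 𝓘(ℝ, ℝ) f (pr y) :=
    (contMDiff_of_lift hf).mdifferentiableAt (by simp)
  have h2 := (h1.hasMFDerivAt.comp y (hasMFDerivAt_pr y)).mfderiv
  have h3 : mfderiv 𝓘(ℝ, E4) 𝓘(ℝ, ℝ) (f ∘ pr) y = fderiv ℝ (f ∘ pr) y := mfderiv_eq_fderiv
  have h4 : fderiv ℝ (f ∘ pr) y w = mfderiv 𝓘(ℝ, E4) 𝓘(ℝ, ℝ) (f ∘ pr) y w := by rw [h3]; rfl
  rw [h4, h2]
  rfl

theorem hasVelocity_pr (y v : E4) (t : ℝ) :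
    HasVelocity (M := torus) (fun s => pr (y + s • v)) t v := by
  have h1 : HasFDerivAt (fun s : ℝ => y + s • v) ((1 : ℝ →L[ℝ] ℝ).smulRight v) t := by
    have := ((hasDerivAt_id t).smul_const v).const_add y
    rw [one_smul] at this
    exact this.hasFDerivAt
  have h2 := (hasMFDerivAt_pr (y + t • v)).comp t h1.hasMFDerivAt
  refine ⟨h2.mdifferentiableAt, ?_⟩
  have h3 := h2.mfderiv
  change mfderiv 𝓘(ℝ, ℝ) (𝓡 4) (pr ∘ fun s : ℝ => y + s • v) t (1 : ℝ) = v
  rw [h3]
  change (1 : ℝ) • v = v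
  rw [one_smul]

end Pool.Agent.MP_12aee2_gt

end MrgPart0

-- ======== part 1: formerly Pool.Agent.MP_12aee2_gt.Form
section MrgPart1

/-!
The irrational constant symplectic form `dx₀ ∧ dx₁ + √2 dx₂ ∧ dx₃` on the four-torus.
-/

open scoped Manifold ContDiff ENNReal Topology
open Set Filter

namespace Pool.Agent.MP_12aee2_gt

/-- The bilinear expression of the form. -/
noncomputable def bil (u v : E4) : ℝ :=
  (u 0 * v 1 - u 1 * v 0) + √2 * (u 2 * v 3 - u 3 * v 2)

/-- The constant form on Euclidean space. -/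
noncomputable def form0 : E4 [⋀^Fin 2]→L[ℝ] ℝ where
  toFun m := bil (m 0) (m 1)
  map_update_add' := by
    intro inst m i x y
    obtain rfl : inst = instDecidableEqFin 2 := Subsingleton.elim _ _
    fin_cases i <;> simp [bil] <;> ring
  map_update_smul' := by
    intro inst m i c x
    obtain rfl : inst = instDecidableEqFin 2 := Subsingleton.elim _ _
    fin_cases i <;> simp [bil] <;> ring
  cont := by
    unfold bil
    fun_prop
  map_eq_zero_of_eq' := by
    intro v i j h hij
    fin_cases i <;> fin_cases j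
    · exact absurd rfl hij
    · have h' : v 0 = v 1 := h
      change bil (v 0) (v 1) = 0
      rw [h', bil]; ring
    · have h' : v 1 = v 0 := h
      change bil (v 0) (v 1) = 0
      rw [h', bil]; ring
    · exact absurd rfl hij

/-- The symplectic form on the torus. -/
noncomputable def tform : TwoForm torus := fun _ => form0

theorem formVal_tform (x : T4) (v w : E4) : formVal tform x v w = bil v w := rfl

/-- The standard basis vectors. -/
noncomputable def ee (i : Fin 4) : E4 := EuclideanSpace.single i 1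

theorem sqrt_two_pos : (0 : ℝ) < √2 := by positivity

theorem eq_of_bil_eq {v v' : E4} (h : ∀ w, bil v w = bil v' w) : v = v' := by
  have h0 := h (ee 0)
  have h1 := h (ee 1)
  have h2 := h (ee 2)
  have h3 := h (ee 3)
  have hs := sqrt_two_pos.ne'
  simp [bil, ee] at h0 h1 h2 h3
  ext i
  fin_cases i
  · exact h1
  · exact h0
  · exact h3
  · exact h2

theorem isSymplectic_tform : IsSymplectic tform := by
  have key : ∀ p : T4, formInChart tform p = fun _ => form0 := fun p => by
    funext y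
    have h1 : chartInvDeriv torus p y = ContinuousLinearMap.id ℝ E4 := by
      have h2 : HasMFDerivAt (𝓡 4) (𝓡 4) ((tchart p).symm : E4 → T4) y
          (ContinuousLinearMap.id ℝ E4) := by
        rw [tchart_symm]; exact hasMFDerivAt_pr y
      exact h2.mfderiv
    ext m
    change form0 (chartInvDeriv torus p y ∘ m) = form0 m
    rw [h1]
    rfl
  refine ⟨fun p => ?_, fun p y _ => ?_, fun x v hv => ?_⟩
  · rw [key p]; exact contDiffOn_const
  · rw [key p, extDeriv, fderiv_fun_const]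
    ext m
    simp [ContinuousAlternatingMap.alternatizeUncurryFin_apply]
  · refine eq_of_bil_eq (v := v) (v' := 0) fun w => ?_
    rw [← formVal_tform x v w, hv w]
    simp [bil]

theorem clm_expand (L : E4 →L[ℝ] ℝ) (w : E4) :
    L w = w 0 * L (ee 0) + w 1 * L (ee 1) + w 2 * L (ee 2) + w 3 * L (ee 3) := by
  have : w = w 0 • ee 0 + w 1 • ee 1 + w 2 • ee 2 + w 3 • ee 3 := by
    ext i
    fin_cases i <;> simp [ee]
  conv_lhs => rw [this]
  simp only [map_add, map_smul, smul_eq_mul]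

/-- The vector dual to a covector. -/
noncomputable def dualVec (L : E4 →L[ℝ] ℝ) : E4 :=
  !₂[L (ee 1), -L (ee 0), (√2)⁻¹ * L (ee 3), -((√2)⁻¹ * L (ee 2))]

theorem bil_dualVec (L : E4 →L[ℝ] ℝ) (w : E4) : bil (dualVec L) w = L w := by
  have hs := sqrt_two_pos.ne'
  rw [clm_expand L w]
  simp [bil, dualVec]
  field_simp
  ring

theorem hamVec_pr {f : T4 → ℝ} (hf : ContDiff ℝ ∞ (f ∘ pr)) (y : E4) :
    hamVec tform f (pr y) = dualVec (fderiv ℝ (f ∘ pr) y) := by
  have hex : ∃ v : Tan torus (pr y), ∀ w, formVal tform (pr y) v w = diffVal (M := torus) f (pr y) w :=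
    ⟨dualVec (fderiv ℝ (f ∘ pr) y), fun w => by
      rw [formVal_tform, diffVal_pr hf, bil_dualVec]⟩
  have h := Classical.epsilon_spec hex
  refine eq_of_bil_eq fun w => ?_
  rw [bil_dualVec, ← diffVal_pr hf, ← h w]
  rfl

theorem poisson_pr {f g : T4 → ℝ} (hf : ContDiff ℝ ∞ (f ∘ pr)) (hg : ContDiff ℝ ∞ (g ∘ pr))
    (y : E4) : poisson tform f g (pr y) =
      fderiv ℝ (f ∘ pr) y (dualVec (fderiv ℝ (g ∘ pr) y)) := by
  rw [← bil_dualVec, ← hamVec_pr hf, ← hamVec_pr hg]
  rfl

end Pool.Agent.MP_12aee2_gt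

end MrgPart1

-- ======== part 2: formerly Pool.Agent.MP_12aee2_gt.Main
section MrgPart2

/-!
Covers of the irrational four-torus by displaceable open sets with Poisson bracket invariant
tending to zero: pull back a fixed cover along `(a x₀ + b x₂, x₁ + x₃)`, whose two components
have the small nonzero Poisson bracket `a + b / √2`.
-/

open scoped Manifold ContDiff ENNReal Topology Real
open Set Filter

namespace Pool.Agent.MP_12aee2_gt

/-- The linear map `(a y₀ + b y₂, y₁ + y₃, 0, 0)`. -/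
noncomputable def linP (a b : ℤ) : E4 →L[ℝ] E4 :=
  LinearMap.toContinuousLinearMap
    { toFun := fun y => !₂[a * y 0 + b * y 2, y 1 + y 3, 0, 0]
      map_add' := fun y z => by
        ext i
        fin_cases i <;> simp <;> ring
      map_smul' := fun c y => by
        ext i
        fin_cases i <;> simp <;> ring }

theorem linP_apply (a b : ℤ) (y : E4) : linP a b y = !₂[a * y 0 + b * y 2, y 1 + y 3, 0, 0] := rfl

/-- The induced map of the torus. -/
def torP (a b : ℤ) (x : T4) : T4 := ![a • x 0 + b • x 2, x 1 + x 3, 0, 0]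

theorem torP_pr (a b : ℤ) (y : E4) : torP a b (pr y) = pr (linP a b y) := by
  funext i
  fin_cases i
  · change a • ((y 0 : ℝ) : UnitAddCircle) + b • ((y 2 : ℝ) : UnitAddCircle) =
      ((a * y 0 + b * y 2 : ℝ) : UnitAddCircle)
    rw [AddCircle.coe_add, ← zsmul_eq_mul, ← zsmul_eq_mul, AddCircle.coe_zsmul,
      AddCircle.coe_zsmul]
  · change ((y 1 : ℝ) : UnitAddCircle) + ((y 3 : ℝ) : UnitAddCircle) =
      ((y 1 + y 3 : ℝ) : UnitAddCircle)
    rw [AddCircle.coe_add]
  · rfl
  · rfl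

theorem continuous_torP (a b : ℤ) : Continuous (torP a b) := by
  refine continuous_pi fun i => ?_
  fin_cases i
  · change Continuous fun x : T4 => a • x 0 + b • x 2
    fun_prop
  · change Continuous fun x : T4 => x 1 + x 3
    fun_prop
  · exact continuous_const
  · exact continuous_const

/-- Cosine on the circle. -/
noncomputable def cc (t : UnitAddCircle) : ℝ := (AddCircle.toCircle t : ℂ).re

/-- Sine on the circle. -/
noncomputable def ss (t : UnitAddCircle) : ℝ := (AddCircle.toCircle t : ℂ).im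

theorem cc_coe (s : ℝ) : cc (s : UnitAddCircle) = Real.cos (2 * π * s) := by
  rw [cc, AddCircle.toCircle_apply_mk, Circle.coe_exp, Complex.exp_ofReal_mul_I_re, div_one]

theorem ss_coe (s : ℝ) : ss (s : UnitAddCircle) = Real.sin (2 * π * s) := by
  rw [ss, AddCircle.toCircle_apply_mk, Circle.coe_exp, Complex.exp_ofReal_mul_I_im, div_one]

theorem continuous_cc : Continuous cc :=
  Complex.continuous_re.comp (continuous_subtype_val.comp AddCircle.continuous_toCircle)

theorem cc_zero : cc 0 = 1 := by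
  have := cc_coe 0
  simpa using this

theorem cc_le_one (t : UnitAddCircle) : cc t ≤ 1 := by
  obtain ⟨s, rfl⟩ := QuotientAddGroup.mk_surjective t
  rw [cc_coe]; exact Real.cos_le_one _

/-- The basic open boxes. -/
def box (p : T4) : Set T4 := {z | dist (z 0) (p 0) < 1 / 10 ∧ 1 / 2 < cc (z 1 - p 1)}

theorem isOpen_box (p : T4) : IsOpen (box p) := by
  have h1 : Continuous fun z : T4 => dist (z 0) (p 0) := by fun_prop
  have h2 : Continuous fun z : T4 => cc (z 1 - p 1) := continuous_cc.comp (by fun_prop)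
  exact (isOpen_lt h1 continuous_const).inter (isOpen_lt continuous_const h2)

theorem mem_box (p : T4) : p ∈ box p := by
  constructor
  · simp
  · rw [sub_self, cc_zero]; norm_num

/-- The Poisson bracket of the two components of the projection. -/
noncomputable def lam (a b : ℤ) : ℝ := a + b * (√2)⁻¹

/-- The direction of the displacing flow. -/
noncomputable def dirU : E4 := !₂[1, 0, (√2)⁻¹, 0]

theorem displaceable_preimage {a b : ℤ} (hl : lam a b ≠ 0) (p : T4) :
    Displaceable tform (torP a b ⁻¹' box p) := by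
  obtain ⟨β, hβ⟩ := QuotientAddGroup.mk_surjective (p 1)
  let h : T4 → ℝ := fun x => (4 * π * lam a b)⁻¹ * ss (x 1 + x 3 - p 1)
  let κ : T4 → ℝ := fun x => (2 * lam a b)⁻¹ * cc (x 1 + x 3 - p 1)
  have harg : ∀ y : E4, pr y 1 + pr y 3 - p 1 = ((y 1 + y 3 - β : ℝ) : UnitAddCircle) := fun y => by
    rw [AddCircle.coe_sub, AddCircle.coe_add, ← hβ]; rfl
  have hlift : h ∘ pr = fun y : E4 => (4 * π * lam a b)⁻¹ * Real.sin (2 * π * (y 1 + y 3 - β)) := by
    funext y
    simp only [h, Function.comp_apply, harg, ss_coe]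
  have hsmooth : ContDiff ℝ ∞ (h ∘ pr) := by
    rw [hlift]; fun_prop
  have hvec : ∀ x : T4, hamVec tform h x = κ x • dirU := fun x => by
    obtain ⟨y, rfl⟩ := pr_surjective x
    refine (hamVec_pr hsmooth y).trans ?_
    change dualVec (fderiv ℝ (h ∘ pr) y) = κ (pr y) • dirU
    rw [hlift]
    have h1 : HasFDerivAt (fun y : E4 => y 1 + y 3 - β)
        ((EuclideanSpace.proj 1 : E4 →L[ℝ] ℝ) + EuclideanSpace.proj 3) y :=
      (((EuclideanSpace.proj 1 : E4 →L[ℝ] ℝ).hasFDerivAt).add
        ((EuclideanSpace.proj 3 : E4 →L[ℝ] ℝ).hasFDerivAt)).sub_const β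
    have h2 := ((h1.const_mul (2 * π)).sin.const_mul (4 * π * lam a b)⁻¹).fderiv
    rw [h2]
    have hpi := Real.pi_pos.ne'
    simp only [κ, harg, cc_coe]
    ext i
    fin_cases i <;> simp [dualVec, dirU, ee] <;> field_simp <;> ring
  let Φ : ℝ → T4 → T4 := fun t x => x + pr (t • (κ x • dirU))
  have hκ : ∀ t x, κ (Φ t x) = κ x := fun t x => by
    simp [κ, Φ, pr, dirU]
  refine ⟨Φ 1, ⟨fun _ => h, Φ, ?_, fun x => ?_, fun x t => ?_, rfl⟩, ?_⟩
  · exact (contMDiff_of_lift hsmooth).comp contMDiff_snd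
  · revert x
    change ∀ x : T4, x + pr ((0 : ℝ) • (κ x • dirU)) = x
    intro x
    rw [zero_smul, pr_zero, add_zero]
  · obtain ⟨y, rfl⟩ := pr_surjective x
    have h1 : (fun s => Φ s (pr y)) = fun s => pr (y + s • (κ (pr y) • dirU)) := by
      funext s
      rw [pr_add]
    have h2 := hasVelocity_pr y (κ (pr y) • dirU) t
    have h3 : hamVec tform h (Φ t (pr y)) = κ (pr y) • dirU := by rw [hvec, hκ]
    refine ⟨?_, ?_⟩
    · change MDifferentiableAt 𝓘(ℝ, ℝ) (𝓡 4) (fun s => Φ s (pr y)) t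
      rw [h1]; exact h2.1
    · change (show E4 from mfderiv 𝓘(ℝ, ℝ) (𝓡 4) (fun s => Φ s (pr y)) t (1 : ℝ)) =
        (show E4 from hamVec tform h (Φ t (pr y)))
      rw [h3]
      have h4 := h2.2
      have h5 : ∀ γ γ' : ℝ → T4, γ = γ' →
          (show E4 from mfderiv 𝓘(ℝ, ℝ) (𝓡 4) γ t (1 : ℝ)) =
            (show E4 from mfderiv 𝓘(ℝ, ℝ) (𝓡 4) γ' t (1 : ℝ)) := by
        rintro γ _ rfl; rfl
      exact (h5 _ _ h1).trans h4
  · rw [Set.disjoint_left]
    rintro _ ⟨x, hx, rfl⟩ hz
    have hcl : closure (torP a b ⁻¹' box p) ⊆ {z : T4 | dist (torP a b z 0) (p 0) ≤ 1 / 10} :=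
      closure_minimal (fun z hz => le_of_lt hz.1)
        (isClosed_le (((continuous_apply 0).comp (continuous_torP a b)).dist continuous_const)
          continuous_const)
    have h1 : dist (torP a b (Φ 1 x) 0) (p 0) ≤ 1 / 10 := hcl hz
    have h2 : dist (torP a b x 0) (p 0) < 1 / 10 := hx.1
    have h3 : 1 / 2 < cc (x 1 + x 3 - p 1) := hx.2
    have h4 := cc_le_one (x 1 + x 3 - p 1)
    have h5 : torP a b (Φ 1 x) 0 = torP a b x 0 + ((cc (x 1 + x 3 - p 1) / 2 : ℝ) : UnitAddCircle) := by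
      have h6 : cc (x 1 + x 3 - p 1) / 2 = a • κ x + b • (κ x * (√2)⁻¹) := by
        simp only [κ, zsmul_eq_mul]
        have h7 : (a : ℝ) = lam a b - b * (√2)⁻¹ := by rw [lam]; ring
        rw [h7]
        field_simp
        ring
      rw [h6, AddCircle.coe_add, AddCircle.coe_zsmul, AddCircle.coe_zsmul]
      change a • (x 0 + pr ((1 : ℝ) • (κ x • dirU)) 0) + b • (x 2 + pr ((1 : ℝ) • (κ x • dirU)) 2) =
        a • x 0 + b • x 2 + _
      have h8 : pr ((1 : ℝ) • (κ x • dirU)) 0 = ((κ x : ℝ) : UnitAddCircle) := by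
        simp [pr, dirU]
      have h9 : pr ((1 : ℝ) • (κ x • dirU)) 2 = ((κ x * (√2)⁻¹ : ℝ) : UnitAddCircle) := by
        simp [pr, dirU]
      rw [h8, h9, smul_add, smul_add]
      abel
    have h6 : dist (torP a b (Φ 1 x) 0) (torP a b x 0) = cc (x 1 + x 3 - p 1) / 2 := by
      rw [h5, dist_eq_norm, add_sub_cancel_left,
        (AddCircle.norm_coe_eq_abs_iff (1 : ℝ) one_ne_zero).2, abs_of_pos (by linarith)]
      rw [abs_of_pos (by linarith), abs_one]
      linarith
    have h7 := dist_triangle_right (torP a b (Φ 1 x) 0) (torP a b x 0) (p 0)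
    linarith

/-- The derivative of the lift of a smooth function on the torus is bounded. -/
theorem exists_fderiv_bound {g : T4 → ℝ} (hg : ContDiff ℝ ∞ (g ∘ pr)) :
    ∃ K : ℝ, ∀ y, ‖fderiv ℝ (g ∘ pr) y‖ ≤ K := by
  have hcpt : IsCompact ((WithLp.toLp 2 : (Fin 4 → ℝ) → E4) '' Set.pi univ fun _ => Icc 0 1) :=
    (isCompact_univ_pi fun _ => isCompact_Icc).image (PiLp.continuous_toLp 2 _)
  obtain ⟨K, hK⟩ := hcpt.exists_bound_of_continuousOn
    (hg.continuous_fderiv (by simp)).continuousOn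
  refine ⟨K, fun y => ?_⟩
  let z : E4 := WithLp.toLp 2 fun i => Int.fract (y i)
  have hz : pr z = pr y := by
    funext i
    exact AddCircle.coe_fract (y i)
  have h1 : fderiv ℝ (g ∘ pr) y = fderiv ℝ (g ∘ pr) z := by
    ext w
    have h2 : ∀ x x' : T4, x = x' →
        diffVal (M := torus) g x w = diffVal (M := torus) g x' w := by
      rintro x _ rfl; rfl
    rw [← diffVal_pr hg, ← diffVal_pr hg]
    exact h2 _ _ hz.symm
  rw [h1]
  exact hK z ⟨_, fun i _ => ⟨Int.fract_nonneg _, (Int.fract_lt_one _).le⟩, rfl⟩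

theorem bracket_comp (a b : ℤ) (L₁ L₂ : E4 →L[ℝ] ℝ) :
    (L₁.comp (linP a b)) (dualVec (L₂.comp (linP a b))) =
      lam a b * (L₁ (ee 0) * L₂ (ee 1) - L₁ (ee 1) * L₂ (ee 0)) := by
  have h0 : linP a b (ee 0) = (a : ℝ) • ee 0 := by
    ext i; fin_cases i <;> simp [linP_apply, ee]
  have h1 : linP a b (ee 1) = ee 1 := by
    ext i; fin_cases i <;> simp [linP_apply, ee]
  have h2 : linP a b (ee 2) = (b : ℝ) • ee 0 := by
    ext i; fin_cases i <;> simp [linP_apply, ee]
  have h3 : linP a b (ee 3) = ee 1 := by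
    ext i; fin_cases i <;> simp [linP_apply, ee]
  rw [clm_expand]
  simp only [ContinuousLinearMap.comp_apply, dualVec, h0, h1, h2, h3, map_smul, smul_eq_mul, lam]
  simp
  ring

theorem abs_apply_ee_le (L : E4 →L[ℝ] ℝ) (i : Fin 4) : |L (ee i)| ≤ ‖L‖ := by
  have := L.le_opNorm (ee i)
  have h1 : ‖ee i‖ = 1 := by simp [ee]
  rwa [h1, mul_one] at this

theorem abs_poisson_le {N : ℕ} {G : Fin N → T4 → ℝ} (hG : ∀ i, ContDiff ℝ ∞ (G i ∘ pr)) {K : ℝ}
    (hK : ∀ i y, ‖fderiv ℝ (G i ∘ pr) y‖ ≤ K) (a b : ℤ) {u v : Fin N → ℝ}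
    (hu : u ∈ Icc (-1 : Fin N → ℝ) 1) (hv : v ∈ Icc (-1 : Fin N → ℝ) 1) (x : T4) :
    |poisson tform (fun z : T4 => ∑ i, u i * G i (torP a b z))
      (fun z : T4 => ∑ j, v j * G j (torP a b z)) x| ≤ |lam a b| * (2 * (N * K) ^ 2) := by
  obtain ⟨y, rfl⟩ := pr_surjective x
  have hsm : ∀ w : Fin N → ℝ, ContDiff ℝ ∞ fun y : E4 => ∑ i, w i * (G i ∘ pr) y := fun w =>
    ContDiff.sum fun i _ => contDiff_const.mul (hG i)
  have hlift : ∀ w : Fin N → ℝ, (fun z : T4 => ∑ i, w i * G i (torP a b z)) ∘ pr =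
      (fun y : E4 => ∑ i, w i * (G i ∘ pr) y) ∘ linP a b := fun w => by
    funext y
    simp only [Function.comp_apply, torP_pr]
  have hsm' : ∀ w : Fin N → ℝ, ContDiff ℝ ∞ ((fun z : T4 => ∑ i, w i * G i (torP a b z)) ∘ pr) :=
    fun w => by rw [hlift]; exact (hsm w).comp (linP a b).contDiff
  have hfd : ∀ w : Fin N → ℝ, fderiv ℝ ((fun z : T4 => ∑ i, w i * G i (torP a b z)) ∘ pr) y =
      (fderiv ℝ (fun y : E4 => ∑ i, w i * (G i ∘ pr) y) (linP a b y)).comp (linP a b) := fun w => by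
    rw [hlift, fderiv_comp y ((hsm w).differentiable (by simp) _) (linP a b).differentiableAt,
      (linP a b).fderiv]
  have hbd : ∀ w ∈ Icc (-1 : Fin N → ℝ) 1, ∀ y,
      ‖fderiv ℝ (fun y : E4 => ∑ i, w i * (G i ∘ pr) y) y‖ ≤ N * K := fun w hw y => by
    have h1 : HasFDerivAt (fun y : E4 => ∑ i, w i * (G i ∘ pr) y)
        (∑ i, w i • fderiv ℝ (G i ∘ pr) y) y :=
      HasFDerivAt.fun_sum fun i _ =>
        (((hG i).differentiable (by simp) y).hasFDerivAt).const_mul (w i)
    rw [h1.fderiv]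
    calc _ ≤ ∑ i, ‖w i • fderiv ℝ (G i ∘ pr) y‖ := norm_sum_le _ _
      _ ≤ ∑ _i : Fin N, K := Finset.sum_le_sum fun i _ => by
          rw [norm_smul]
          have h2 : ‖w i‖ ≤ 1 := abs_le.2 ⟨hw.1 i, hw.2 i⟩
          calc _ ≤ 1 * K := mul_le_mul h2 (hK i y) (norm_nonneg _) zero_le_one
            _ = K := one_mul K
      _ = N * K := by simp
  rw [poisson_pr (hsm' u) (hsm' v), hfd, hfd, bracket_comp, abs_mul]
  refine mul_le_mul_of_nonneg_left ?_ (abs_nonneg _)
  set L₁ := fderiv ℝ (fun y : E4 => ∑ i, u i * (G i ∘ pr) y) (linP a b y)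
  set L₂ := fderiv ℝ (fun y : E4 => ∑ i, v i * (G i ∘ pr) y) (linP a b y)
  have h1 : ‖L₁‖ ≤ N * K := hbd u hu _
  have h2 : ‖L₂‖ ≤ N * K := hbd v hv _
  have h0 : 0 ≤ N * K := (norm_nonneg _).trans h1
  have h3 : ∀ i j, |L₁ (ee i) * L₂ (ee j)| ≤ (N * K) ^ 2 := fun i j => by
    rw [abs_mul, sq]
    exact mul_le_mul ((abs_apply_ee_le _ _).trans h1) ((abs_apply_ee_le _ _).trans h2)
      (abs_nonneg _) h0
  calc _ ≤ |L₁ (ee 0) * L₂ (ee 1)| + |L₁ (ee 1) * L₂ (ee 0)| := abs_sub _ _
    _ ≤ 2 * (N * K) ^ 2 := by linarith [h3 0 1, h3 1 0]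

theorem exists_small_lam (k : ℕ) : ∃ a b : ℤ, lam a b ≠ 0 ∧ |lam a b| ≤ 1 / ((k : ℝ) + 1) := by
  obtain ⟨j, m, hm, -, h⟩ := Real.exists_int_int_abs_mul_sub_le (√2)⁻¹ (n := k + 1) k.succ_pos
  have h1 : lam (-j) m = m * (√2)⁻¹ - j := by rw [lam]; push_cast; ring
  refine ⟨-j, m, ?_, ?_⟩
  · rw [h1]
    exact ((irrational_sqrt_two.inv.intCast_mul hm.ne').sub_intCast j).ne_zero
  · rw [h1]
    refine h.trans (one_div_le_one_div_of_le (by positivity) ?_)
    push_cast; linarith

theorem main : ∃ (N : ℕ) (U : ℕ → Fin N → Set torus.carrier),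
    (∀ k, IsDisplaceableCover tform (U k)) ∧
      Tendsto (fun k => pbCover tform (U k)) atTop (𝓝 0) := by
  obtain ⟨t, ht⟩ := CompactSpace.elim_nhds_subcover box fun p => (isOpen_box p).mem_nhds (mem_box p)
  let c : Fin t.card → T4 := fun i => t.equivFin.symm i
  have hcov : ⋃ i, box (c i) = univ := by
    refine eq_univ_of_forall fun x => ?_
    have hx : x ∈ ⋃ p ∈ t, box p := by rw [ht]; trivial
    obtain ⟨p, hp, hxp⟩ := mem_iUnion₂.1 hx
    exact mem_iUnion.2 ⟨t.equivFin ⟨p, hp⟩, by simpa [c] using hxp⟩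
  obtain ⟨G, hG⟩ := SmoothPartitionOfUnity.exists_isSubordinate (𝓡 4) isClosed_univ
    (fun i => box (c i)) (fun i => isOpen_box _) hcov.ge
  have hGs : ∀ i, ContDiff ℝ ∞ (G i ∘ pr) := fun i => contDiff_lift (G i).contMDiff
  choose K₀ hK₀ using fun i => exists_fderiv_bound (hGs i)
  obtain ⟨K, hK⟩ := (Set.finite_range K₀).bddAbove
  have hK' : ∀ i y, ‖fderiv ℝ (G i ∘ pr) y‖ ≤ K := fun i y => (hK₀ i y).trans (hK ⟨i, rfl⟩)
  choose a b hab1 hab2 using exists_small_lam
  refine ⟨t.card, fun k i => torP (a k) (b k) ⁻¹' box (c i), fun k => ⟨fun i => ⟨?_, ?_⟩, ?_⟩, ?_⟩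
  · exact (isOpen_box _).preimage (continuous_torP _ _)
  · exact displaceable_preimage (hab1 k) _
  · exact (preimage_iUnion (f := torP (a k) (b k)) (s := fun i => box (c i))).symm.trans
      (by rw [hcov]; rfl)
  · set C : ℝ := 2 * (t.card * K) ^ 2 with hC
    have hC0 : 0 ≤ C := by positivity
    have hle : ∀ k, pbCover tform (fun i => torP (a k) (b k) ⁻¹' box (c i)) ≤
        ENNReal.ofReal (1 / ((k : ℝ) + 1) * C) := fun k => by
      let F : SmoothPartitionOfUnity (Fin t.card) (𝓡 4) T4 univ :=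
        { toFun := fun i => ⟨G i ∘ torP (a k) (b k), contMDiff_of_lift (by
            have : (G i ∘ torP (a k) (b k)) ∘ pr = (G i ∘ pr) ∘ linP (a k) (b k) := by
              funext y
              simp only [Function.comp_apply, torP_pr]
            rw [this]
            exact (hGs i).comp (linP _ _).contDiff)⟩
          locallyFinite' := locallyFinite_of_finite _
          nonneg' := fun i x => G.nonneg i _
          sum_eq_one' := fun x _ => G.sum_eq_one (mem_univ _)
          sum_le_one' := fun x => G.sum_le_one _ }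
      have hF : F.IsSubordinate fun i => torP (a k) (b k) ⁻¹' box (c i) := fun i => by
        have h1 : tsupport (F i) ⊆ torP (a k) (b k) ⁻¹' tsupport (G i) :=
          closure_minimal (fun x hx => subset_closure hx)
            ((isClosed_tsupport _).preimage (continuous_torP _ _))
        exact h1.trans (preimage_mono (hG i))
      refine (iInf₂_le F hF).trans ?_
      refine iSup₂_le fun u hu => iSup₂_le fun v hv => iSup_le fun x => ?_
      rw [Real.enorm_eq_ofReal_abs]
      refine ENNReal.ofReal_le_ofReal ?_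
      exact (abs_poisson_le hGs hK' (a k) (b k) hu hv x).trans
        (mul_le_mul_of_nonneg_right (hab2 k) hC0)
    have hlim : Tendsto (fun k : ℕ => ENNReal.ofReal (1 / ((k : ℝ) + 1) * C)) atTop (𝓝 0) := by
      have := ENNReal.tendsto_ofReal
        ((tendsto_one_div_add_atTop_nhds_zero_nat (𝕜 := ℝ)).mul_const C)
      simpa using this
    exact tendsto_of_tendsto_of_tendsto_of_le_of_le tendsto_const_nhds hlim
      (fun _ => zero_le) hle

end Pool.Agent.MP_12aee2_gt

end MrgPart2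

-- marker of a merged file
example : 731051 + 218374 = 731051 + 218374 := rfl
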